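import Mathlib
import Pool.Agent.Helper65.Comp.Closure

set_option autoImplicit false

/-!
# Composition of linear systems of expected dimension

A system is a degree `d` with a multiset `v` of multiplicities at general points of the complex
projective plane. `Exact T d v` is generated by the rules

* `cluster`: let the vector `W` impose `c` conditions, `(b + 1).choose 2 ≤ c ≤ (b + 2).choose 2`,
  `b ≥ 1`, and be non-special in the degrees `b - 1` and `b`; if one point of multiplicity `b`, and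
  also one of multiplicity `b + 1`, may be completed by `e` in degree `d`, then so may `W`;
* `clusters`: the same for `N` vectors `W i` with the same number of conditions and the same `b`, to be
  compared only with `N` points of multiplicity `b` and with `N` points of multiplicity `b + 1`;
* `higher`, `lower`: independent conditions remain independent in higher degrees, empty systems remain
  empty in lower degrees;

from every non-special system (`known`) and from the following systems, which the theorems of the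
library show to be non-special: one point, below and above the window for arbitrary multiplicities at
`n ≥ 10` points (`low`, `high`), equal multiplicities at `n ≥ 37`, `13` or `21` points (`uniform`),
multiplicities `m, m + 1` at `T` or more points (`near`), nine multiplicities with
`∑ (w i - h) ^ 2 ≤ 4 h + 3` (`nine`), and vectors with many points in few clusters (`few`).

All these systems are non-special, for one threshold `T`.
-/

namespace Pool.Agent.Results.MP_6b2d39_ag.Composition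

open MvPolynomial

/-- Forms of degree `d` vanishing to order at least `w i` at the points `(P i 0 : P i 1 : 1)`. -/
noncomputable def forms {n : ℕ} (P : Fin n → Fin 2 → ℂ) (d : ℕ) (w : Fin n → ℕ) :
    Submodule ℂ (MvPolynomial (Fin 3) ℂ) :=
  homogeneousSubmodule (Fin 3) ℂ d ⊓
    Submodule.restrictScalars ℂ
      (⨅ i : Fin n, (Ideal.span {X 0 - C (P i 0) * X 2, X 1 - C (P i 1) * X 2} :
        Ideal (MvPolynomial (Fin 3) ℂ)) ^ (w i))

/-- The system of the forms of degree `d` with multiplicities `w` at the points `P` is not special: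
its vector space dimension is `max (0, (d + 2) (d + 1) / 2 - ∑ (w i + 1) (w i) / 2)`. -/
def NonSpecial {n : ℕ} (P : Fin n → Fin 2 → ℂ) (d : ℕ) (w : Fin n → ℕ) : Prop :=
  (Module.finrank ℂ ↥(forms P d w) : ℤ) =
    max 0 (((d + 2).choose 2 : ℤ) - ∑ i, ((w i + 1).choose 2 : ℤ))

/-- The system of degree `d` with the multiplicities `w` at general points is not special: a
nonempty Zariski open set of points, the complement of the zeros of `F`. -/
def GeneralNonSpecial {n : ℕ} (d : ℕ) (w : Fin n → ℕ) : Prop :=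
  ∃ F : MvPolynomial (Fin n × Fin 2) ℂ, F ≠ 0 ∧ ∀ P : Fin n → Fin 2 → ℂ,
    eval (fun ij : Fin n × Fin 2 => P ij.1 ij.2) F ≠ 0 → NonSpecial P d w

/-- The multiset of the multiplicities. -/
def mults {n : ℕ} (w : Fin n → ℕ) : Multiset ℕ := Multiset.map w Finset.univ.val

/-- The number of conditions. -/
def conditions (v : Multiset ℕ) : ℕ := (v.map fun a => (a + 1).choose 2).sum

/-- Many points in few clusters: `v i ≥ 1`, `v i ≤ μ`, at most `r` values of `⌊√(v i)⌋` (or
`⌊√μ⌋ ≤ r`) and `∑ v i ^ 2 ≥ 10 ^ 17 r μ ^ 2 (⌊log₂ μ⌋ + 1) ^ 5`. -/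
def Many {k : ℕ} (v : Fin k → ℕ) : Prop :=
  (∀ i, 1 ≤ v i) ∧ ∃ μ r : ℕ, 1 ≤ μ ∧ 1 ≤ r ∧ (∀ i, v i ≤ μ) ∧
    ((Finset.univ.image fun i => Nat.sqrt (v i)).card ≤ r ∨ Nat.sqrt μ ≤ r) ∧
    10 ^ 17 * r * μ ^ 2 * (Nat.log 2 μ + 1) ^ 5 ≤ ∑ i, v i ^ 2

/-- The systems (degree `d`, multiplicities `v`) generated from the bases by composition. -/
inductive Exact (T : ℕ) : ℕ → Multiset ℕ → Prop
  | known {n d : ℕ} (w : Fin n → ℕ) (h : GeneralNonSpecial d w) : Exact T d (mults w)
  | point (d b : ℕ) : Exact T d {b}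
  | low {d : ℕ} {v : Multiset ℕ} (hn : 10 ≤ v.card) (h : √(v.card : ℝ) * d < (v.sum : ℝ)) :
      Exact T d v
  | high {d b : ℕ} {v : Multiset ℕ} (hn : 10 ≤ v.card) (hb : ∀ a ∈ v, a ≤ b + 1)
      (h : (v.card : ℝ) + (((v.map fun a => max a b).sum : ℕ) : ℝ) < √(v.card : ℝ) * (d + 3)) :
      Exact T d v
  | uniform {d n m : ℕ} (hm : 1 ≤ m) (hn : 37 ≤ n ∨ n = 13 ∨ n = 21) :
      Exact T d (Multiset.replicate n m)
  | near {d m : ℕ} {v : Multiset ℕ} (hT : T ≤ v.card) (hm : 1 ≤ m)
      (hv : ∀ a ∈ v, a = m ∨ a = m + 1) : Exact T d v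
  | nine {d h : ℕ} (w : Fin 9 → ℕ) (hw : ∑ i, ((w i : ℤ) - h) ^ 2 ≤ 4 * h + 3) :
      Exact T d (mults w)
  | few {d k : ℕ} (v : Fin k → ℕ) (hv : Many v) : Exact T d (mults v)
  | cluster {d b : ℕ} {W e : Multiset ℕ} (hb : 1 ≤ b) (h1 : (b + 1).choose 2 ≤ conditions W)
      (h2 : conditions W ≤ (b + 2).choose 2) (g1 : Exact T (b - 1) W) (g2 : Exact T b W)
      (h : Exact T d (b ::ₘ e)) (h' : Exact T d ((b + 1) ::ₘ e)) : Exact T d (W + e)
  | clusters {d b c N : ℕ} (hN : 1 ≤ N) {W : Fin N → Multiset ℕ} {e : Multiset ℕ} (hb : 1 ≤ b)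
      (hc : ∀ i, conditions (W i) = c) (h1 : (b + 1).choose 2 ≤ c) (h2 : c ≤ (b + 2).choose 2)
      (g1 : ∀ i, Exact T (b - 1) (W i)) (g2 : ∀ i, Exact T b (W i))
      (h : Exact T d (Multiset.replicate N b + e))
      (h' : Exact T d (Multiset.replicate N (b + 1) + e)) : Exact T d (∑ i, W i + e)
  | higher {d d' : ℕ} {v : Multiset ℕ} (hd : d' ≤ d) (hc : conditions v ≤ (d' + 2).choose 2)
      (h : Exact T d' v) : Exact T d v
  | lower {d d' : ℕ} {v : Multiset ℕ} (hd : d ≤ d') (hc : (d' + 2).choose 2 ≤ conditions v)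
      (h : Exact T d' v) : Exact T d v

open Pool.Agent.TH545.SD Pool.Agent.Helper65.Comp in
theorem ge : ∃ T : ℕ, ∀ (d : ℕ) (v : Multiset ℕ), Exact T d v → GE d v := by
  obtain ⟨T, hT⟩ := GD.near
  refine ⟨T, ?_⟩
  intro d v h
  induction h with
  | @known n d w h =>
    obtain ⟨F, hF, hF'⟩ := h
    rw [mults, ms_map w]
    refine GE.of (GD_of_open (K := ℂ) ⟨F, hF, fun P hP => ?_⟩)
    have h2 := hF' P hP
    unfold NonSpecial forms at h2
    unfold Pool.Agent.H932R3.ExpDim
    have e : ∑ i, ((w i + 1).choose 2 : ℤ) = ((∑ i, (w i + 1).choose 2 : ℕ) : ℤ) := by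
      push_cast
      rfl
    rw [e] at h2
    omega
  | point d b => exact GE.of (GD.point d b)
  | low hn h => exact GE.of (GD.low hn h)
  | high hn hb h => exact GE.of (GD.high hn hb h)
  | uniform hm hn =>
    rw [← Multiset.nsmul_singleton]
    exact GE.of (GD.uniform hm hn)
  | near h1 h2 h3 => exact GE.of (hT h1 h2 h3)
  | @nine d h w hw =>
    rw [mults, ms_map w]
    exact GE.of (nine_GD hw d)
  | @few d k v hv =>
    rw [mults, ms_map v]
    exact Pool.Agent.Helper65.Comp.Many.ge hv d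
  | cluster hb h1 h2 _ _ _ _ ih1 ih2 ih3 ih4 => exact GE.cluster hb h1 h2 ih1 ih2 ih3 ih4
  | clusters hN hb hc h1 h2 _ _ _ _ ih1 ih2 ih3 ih4 =>
    exact GE.clusters hN hb hc h1 h2 ih1 ih2 ih3 ih4
  | higher hd hc _ ih => exact GE.of (GD.above hd hc (@GE.gd _ _ ih))
  | lower hd hc _ ih => exact GE.of (GD.below hd hc (@GE.gd _ _ ih))

theorem result : ∃ T : ℕ, ∀ (n : ℕ) (w : Fin n → ℕ) (d : ℕ), Exact T d (mults w) →
    GeneralNonSpecial d w := by
  obtain ⟨T, hT⟩ := ge
  refine ⟨T, fun n w d h => ?_⟩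
  have h1 : Pool.Agent.Helper65.Comp.GE d (Pool.Agent.TH641.UM.ms w) := by
    rw [← Pool.Agent.TH545.SD.ms_map w]
    exact hT d (mults w) h
  obtain ⟨F, hF, hF'⟩ := Pool.Agent.TH545.SD.GD.expDim (@Pool.Agent.Helper65.Comp.GE.gd _ _ h1)
  refine ⟨F.map (algebraMap ℚ ℂ), Pool.Agent.H932R3.map_ne_zero_of hF, fun P hP => ?_⟩
  rw [MvPolynomial.eval_map] at hP
  have h2 := hF' (L := ℂ) P hP
  unfold Pool.Agent.H932R3.ExpDim at h2
  unfold NonSpecial forms
  rw [h2]
  have e : ∑ i, ((w i + 1).choose 2 : ℤ) = ((∑ i, (w i + 1).choose 2 : ℕ) : ℤ) := by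
    push_cast
    rfl
  rw [e]
  omega

end Pool.Agent.Results.MP_6b2d39_ag.Composition
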