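import Mathlib
import Pool.Agent.Helper65.Comp.Main3

set_option autoImplicit false

/-!
# Harbourne-Hirschowitz for multiplicities in few clusters: about `√μ` points suffice

Let `v 1, …, v k ≥ 1` be multiplicities with `v i ≤ μ`, and let `r` be the number of different values
of `⌊√(v i)⌋` (always `r ≤ √μ`). If

`∑ v i ^ 2 ≥ 10 ^ 17 r μ ^ 2 (⌊log₂ μ⌋ + 1) ^ 5`,

then for general points of the complex projective plane with these multiplicities, and any number of
further simple points, no system of curves, of whatever degree, is special, or `(-1)`-special.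
In particular this holds for all multiplicities between `μ / 2` and `μ` at
`4 * 10 ^ 17 √μ (log₂ μ + 1) ^ 5` or more points.

Proof. (1) Composition: if a group of points imposes `c` conditions,
`(b + 1).choose 2 ≤ c ≤ (b + 2).choose 2`, and is non-special in the degrees `b - 1` and `b`, it may be
replaced by one point of multiplicity `b` or `b + 1`: if all systems obtained in this way from a system
of degree `d` are non-special, so is the system itself (collisions of the groups in general
directions). (2) `9 ^ j` nearly equal multiplicities, `3 ^ j (K + 2) ^ 2 ≤ h`, all in `[h, h + K]`, are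
non-special in all degrees: by (1) from nine nearly equal ones. (3) Additive energies: many disjoint
subsets of `9 ^ j` points in a cluster impose equal numbers of conditions. (4) By (1), the vector is
replaced by vectors with few different values, which are known to be non-special.
-/

namespace Pool.Agent.Results.MP_6b2d39_ag.FewClusters

open MvPolynomial Pool.Agent.TH167.SHDefs

/-- The number of different values of `⌊√(v i)⌋`. -/
def clusters {k : ℕ} (v : Fin k → ℕ) : ℕ := (Finset.univ.image fun i => Nat.sqrt (v i)).card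

/-- Many points in few clusters. -/
def Many {k : ℕ} (v : Fin k → ℕ) : Prop :=
  (∀ i, 1 ≤ v i) ∧ ∃ μ r : ℕ, 1 ≤ μ ∧ 1 ≤ r ∧ (∀ i, v i ≤ μ) ∧ (clusters v ≤ r ∨ Nat.sqrt μ ≤ r) ∧
    10 ^ 17 * r * μ ^ 2 * (Nat.log 2 μ + 1) ^ 5 ≤ ∑ i, v i ^ 2

theorem result {n k : ℕ} (w : Fin n → ℕ) (e : Fin k ↪ Fin n) (hm : Many fun j => w (e j))
    (h1 : ∀ i, i ∉ Set.range e → w i ≤ 1) :
    ∃ F : MvPolynomial (Fin n × Fin 2) ℂ, F ≠ 0 ∧
      ∀ P : Fin n → Fin 2 → ℂ, MvPolynomial.eval (fun ij : Fin n × Fin 2 => P ij.1 ij.2) F ≠ 0 →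
        ∀ d, ¬ Special P d w ∧ ¬ MinusOneSpecial P d w := by
  obtain ⟨F, hF, hF'⟩ := Pool.Agent.Helper65.Comp.all_exp e hm h1
  refine ⟨F.map (algebraMap ℚ ℂ), Pool.Agent.H932R3.map_ne_zero_of hF, fun P hP d => ?_⟩
  rw [MvPolynomial.eval_map] at hP
  have h2 : Module.finrank ℂ ↥(sys P d w) =
      Nat.choose (d + 2) 2 - ∑ i, Nat.choose (w i + 1) 2 := hF' (L := ℂ) P hP d
  have h3 : ∑ i, ((w i + 1).choose 2 : ℤ) = ((∑ i, Nat.choose (w i + 1) 2 : ℕ) : ℤ) := by
    push_cast
    rfl
  have h4 : ¬ Special P d w := by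
    unfold Special dimL virtdim
    rw [h2, h3]
    omega
  exact ⟨h4, fun h => h4 (Pool.Agent.TH442.NF.spec_of_mspec h)⟩

end Pool.Agent.Results.MP_6b2d39_ag.FewClusters
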