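import Mathlib
import Pool.Agent.Helper65.Comp.Main3

set_option autoImplicit false

/-!
# The Harbourne-Hirschowitz conjecture for classes whose standard form has few clusters

A class `(d; w)` of the plane blown up at `n` points is called good if at some of the points `w` is at
most a vector `v` with many points in few clusters (`Many`), equal to it or with
`χ (d; v) = (d + 2).choose 2 - ∑ (v j + 1).choose 2 ≥ 0`, and if `w ≤ 1` at the other points.

If finitely many reflections in classes `H - E_i - E_j - E_k` carry `(d; w)` to a good standard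
class, then for general points the linear system `(d; w)` has the expected dimension.
For every `(d; w)` and general points: the linear system `(d; w)` is special if and only if it is
`(-1)`-special, unless its reduced form is a special standard class which is not good.
-/

namespace Pool.Agent.Results.MP_6b2d39_ag.FewClustersOrbits

open MvPolynomial Pool.Agent.TH167.SHDefs

/-- The number of different values of `⌊√(v i)⌋`. -/
def clusters {k : ℕ} (v : Fin k → ℕ) : ℕ := (Finset.univ.image fun i => Nat.sqrt (v i)).card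

/-- Many points in few clusters. -/
def Many {k : ℕ} (v : Fin k → ℕ) : Prop :=
  (∀ i, 1 ≤ v i) ∧ ∃ μ r : ℕ, 1 ≤ μ ∧ 1 ≤ r ∧ (∀ i, v i ≤ μ) ∧ (clusters v ≤ r ∨ Nat.sqrt μ ≤ r) ∧
    10 ^ 17 * r * μ ^ 2 * (Nat.log 2 μ + 1) ^ 5 ≤ ∑ i, v i ^ 2

/-- Good classes. -/
def Good {n : ℕ} (d : ℕ) (w : Fin n → ℕ) : Prop :=
  ∃ (k : ℕ) (e : Fin k ↪ Fin n) (v : Fin k → ℕ), Many v ∧ (∀ i, i ∉ Set.range e → w i ≤ 1) ∧
    (∀ j, w (e j) ≤ v j) ∧ ((∀ j, w (e j) = v j) ∨ ∑ j, (v j + 1).choose 2 ≤ (d + 2).choose 2)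

/-- The class is standard. -/
def Standard {n : ℕ} (d : ℕ) (w : Fin n → ℕ) : Prop :=
  ∀ i j k : Fin n, i ≠ j → i ≠ k → j ≠ k → w i + w j + w k ≤ d

/-- For general points the linear system has the expected dimension. -/
def Expected {n : ℕ} (d : ℕ) (w : Fin n → ℕ) : Prop :=
  ∃ F : MvPolynomial (Fin n × Fin 2) ℂ, F ≠ 0 ∧ ∀ P : Fin n → Fin 2 → ℂ,
    MvPolynomial.eval (fun ij : Fin n × Fin 2 => P ij.1 ij.2) F ≠ 0 →
      dimL P d w = max (virtdim d w) (-1)

/-- The reflection of the class `a = (d; w)`, `d H - ∑ w l E l`, in the class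
`H - E (i 0) - E (i 1) - E (i 2)`: with `δ = d - w (i 0) - w (i 1) - w (i 2)`, the numbers
`d`, `w (i 0)`, `w (i 1)`, `w (i 2)` are increased by `δ`. -/
def reflect {n : ℕ} (i : Fin 3 → Fin n) (a : ℤ × (Fin n → ℤ)) : ℤ × (Fin n → ℤ) :=
  (a.1 + (a.1 - a.2 (i 0) - a.2 (i 1) - a.2 (i 2)),
    fun l => a.2 l + if l = i 0 ∨ l = i 1 ∨ l = i 2 then a.1 - a.2 (i 0) - a.2 (i 1) - a.2 (i 2)
      else 0)

/-- Finitely many reflections carry `(d; w)` to `(d'; w')`. -/
def Carries {n : ℕ} (d : ℕ) (w : Fin n → ℕ) (d' : ℕ) (w' : Fin n → ℕ) : Prop :=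
  Relation.ReflTransGen
    (fun a b : ℤ × (Fin n → ℤ) => ∃ i : Fin 3 → Fin n, Function.Injective i ∧ b = reflect i a)
    ((d : ℤ), fun l => (w l : ℤ)) ((d' : ℤ), fun l => (w' l : ℤ))

theorem of_open {n : ℕ} {d : ℕ} {w : Fin n → ℕ}
    (h : ∀ {K : Type} [Field K] [CharZero K] {P : Fin n → Fin 2 → K},
      AlgebraicIndependent ℚ (fun ij : Fin n × Fin 2 => P ij.1 ij.2) →
        Pool.Agent.H932R3.ExpDim K w P d) : Expected d w := by
  obtain ⟨F, hF, hF'⟩ := Pool.Agent.TH442.NF.to_open h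
  refine ⟨F.map (algebraMap ℚ ℂ), Pool.Agent.H932R3.map_ne_zero_of hF, fun P hP => ?_⟩
  rw [MvPolynomial.eval_map] at hP
  have h1 : Module.finrank ℂ ↥(sys P d w) =
      Nat.choose (d + 2) 2 - ∑ i, Nat.choose (w i + 1) 2 := hF' (L := ℂ) P hP
  have h2 : ∑ i, ((w i + 1).choose 2 : ℤ) = ((∑ i, Nat.choose (w i + 1) 2 : ℕ) : ℤ) := by
    push_cast
    rfl
  unfold dimL virtdim
  rw [h1, h2]
  omega

theorem result (n : ℕ) (hn : 4 ≤ n) (d : ℕ) (w : Fin n → ℕ) :
    (∀ (d' : ℕ) (w' : Fin n → ℕ), Carries d w d' w' → Standard d' w' → Good d' w' →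
      Expected d w) ∧
    ∃ F : MvPolynomial (Fin n × Fin 2) ℂ, F ≠ 0 ∧
      ∀ P : Fin n → Fin 2 → ℂ, MvPolynomial.eval (fun ij : Fin n × Fin 2 => P ij.1 ij.2) F ≠ 0 →
        (MinusOneSpecial P d w → Special P d w) ∧
        (Special P d w → MinusOneSpecial P d w ∨
          ∃ (d'' : ℕ) (w'' : Fin n → ℕ) (k : ℕ) (G : Fin k → MvPolynomial (Fin 3) ℂ)
            (e : Fin k → ℕ) (u : Fin k → Fin n → ℕ) (N : Fin k → ℕ) (d' : ℕ) (w' : Fin n → ℕ),
            Decomp P d w d'' w'' G e u N ∧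
            Relation.ReflTransGen Quadratic (d'', w'') (d', w') ∧ Standard d' w' ∧
            Special P d' w' ∧ ¬ Good d' w') :=
  ⟨fun _ _ hc hs hG => of_open fun hP => Pool.Agent.Helper65.Comp.orbit_good hn hP hc hs hG,
    Pool.Agent.TH442.NF.hh_open hn (Q := fun d' w' => Good d' w')
      (fun hP _ _ _ hG => Pool.Agent.Helper65.Comp.good_exp hG hP) d w⟩

end Pool.Agent.Results.MP_6b2d39_ag.FewClustersOrbits
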